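import Pool.Agent.CPR.Upper
import Pool.Agent.CPR.Lower

/-!
The order of magnitude of the clique-versus-path Ramsey threshold in the sparse range.
-/

open Filter Asymptotics SimpleGraph MeasureTheory Topology

namespace Pool.Agent.Results.MP_4b2596_co.Threshold

open Pool.Agent.CPR

/-! ### Consequences of the range of `p` -/

lemma range_upper {r : ℕ} {p : ℕ → unitInterval}
    (h : (fun n => (p n : ℝ)) =o[atTop] (fun n : ℕ => (n : ℝ) ^ (-(2 : ℝ) / (r + 2)))) :
    ∀ᶠ n : ℕ in atTop, (n : ℝ) ^ 2 * (p n : ℝ) ^ (r + 2) ≤ 1 := by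
  have h1 := h.bound (c := 1) one_pos
  filter_upwards [h1, eventually_gt_atTop 0] with n hn hn0
  have hn0' : (0 : ℝ) < n := by exact_mod_cast hn0
  rw [one_mul, Real.norm_of_nonneg (p n).2.1, Real.norm_of_nonneg (by positivity)] at hn
  have h2 : (p n : ℝ) ^ (r + 2) ≤ ((n : ℝ) ^ (-(2 : ℝ) / (r + 2))) ^ (r + 2) :=
    pow_le_pow_left₀ (p n).2.1 hn _
  have h3 : ((n : ℝ) ^ (-(2 : ℝ) / (r + 2))) ^ (r + 2) = ((n : ℝ) ^ 2)⁻¹ := by
    rw [← Real.rpow_natCast, ← Real.rpow_mul hn0'.le]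
    have : -(2 : ℝ) / (r + 2) * ((r + 2 : ℕ) : ℝ) = -((2 : ℕ) : ℝ) := by
      push_cast
      have : (r : ℝ) + 2 ≠ 0 := by positivity
      field_simp
    rw [this, Real.rpow_neg hn0'.le, Real.rpow_natCast]
  rw [h3] at h2
  calc (n : ℝ) ^ 2 * (p n : ℝ) ^ (r + 2) ≤ (n : ℝ) ^ 2 * ((n : ℝ) ^ 2)⁻¹ :=
        mul_le_mul_of_nonneg_left h2 (by positivity)
    _ = 1 := mul_inv_cancel₀ (by positivity)

lemma range_small {r : ℕ} {p : ℕ → unitInterval}
    (h : (fun n => (p n : ℝ)) =o[atTop] (fun n : ℕ => (n : ℝ) ^ (-(2 : ℝ) / (r + 2))))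
    {ε : ℝ} (hε : 0 < ε) : ∀ᶠ n : ℕ in atTop, (p n : ℝ) ≤ ε := by
  have h1 := h.bound hε
  filter_upwards [h1, eventually_gt_atTop 0] with n hn hn0
  have hn1 : (1 : ℝ) ≤ n := by exact_mod_cast hn0
  rw [Real.norm_of_nonneg (p n).2.1, Real.norm_of_nonneg (by positivity)] at hn
  have h2 : (n : ℝ) ^ (-(2 : ℝ) / (r + 2)) ≤ 1 := by
    apply Real.rpow_le_one_of_one_le_of_nonpos hn1
    apply div_nonpos_of_nonpos_of_nonneg (by norm_num) (by positivity)
  nlinarith

lemma range_lower {r : ℕ} {p : ℕ → unitInterval}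
    (h : (fun n : ℕ => (n : ℝ) ^ (-(2 : ℝ) / (r + 1))) =o[atTop] (fun n => (p n : ℝ)))
    {B : ℝ} (hB : 1 ≤ B) : ∀ᶠ n : ℕ in atTop, B ≤ (n : ℝ) ^ 2 * (p n : ℝ) ^ (r + 1) := by
  have hB0 : 0 < B := by linarith
  have h1 := h.bound (c := 1 / B) (by positivity)
  filter_upwards [h1, eventually_gt_atTop 0] with n hn hn0
  have hn0' : (0 : ℝ) < n := by exact_mod_cast hn0
  rw [Real.norm_of_nonneg (p n).2.1, Real.norm_of_nonneg (by positivity)] at hn
  have h2 : ((n : ℝ) ^ (-(2 : ℝ) / (r + 1))) ^ (r + 1) ≤ (1 / B * (p n : ℝ)) ^ (r + 1) :=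
    pow_le_pow_left₀ (by positivity) hn _
  have h3 : ((n : ℝ) ^ (-(2 : ℝ) / (r + 1))) ^ (r + 1) = ((n : ℝ) ^ 2)⁻¹ := by
    rw [← Real.rpow_natCast, ← Real.rpow_mul hn0'.le]
    have : -(2 : ℝ) / (r + 1) * ((r + 1 : ℕ) : ℝ) = -((2 : ℕ) : ℝ) := by
      push_cast
      have : (r : ℝ) + 1 ≠ 0 := by positivity
      field_simp
    rw [this, Real.rpow_neg hn0'.le, Real.rpow_natCast]
  rw [h3, mul_pow] at h2
  have hp0 : 0 ≤ (p n : ℝ) ^ (r + 1) := pow_nonneg (p n).2.1 _
  have h4 : (1 / B) ^ (r + 1) ≤ 1 / B := by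
    have : (1 / B) ≤ 1 := by
      rw [div_le_one hB0]
      exact hB
    calc (1 / B) ^ (r + 1) ≤ (1 / B) ^ 1 := pow_le_pow_of_le_one (by positivity) this (by omega)
      _ = 1 / B := pow_one _
  have h5 : ((n : ℝ) ^ 2)⁻¹ ≤ 1 / B * (p n : ℝ) ^ (r + 1) :=
    h2.trans (mul_le_mul_of_nonneg_right h4 hp0)
  have h6 : (n : ℝ) ^ 2 * ((n : ℝ) ^ 2)⁻¹ ≤ (n : ℝ) ^ 2 * (1 / B * (p n : ℝ) ^ (r + 1)) :=
    mul_le_mul_of_nonneg_left h5 (by positivity)
  rw [mul_inv_cancel₀ (by positivity)] at h6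
  have h7 : (n : ℝ) ^ 2 * (1 / B * (p n : ℝ) ^ (r + 1))
      = ((n : ℝ) ^ 2 * (p n : ℝ) ^ (r + 1)) / B := by ring
  rw [h7, le_div_iff₀ hB0, one_mul] at h6
  exact h6

lemma range_pos {r : ℕ} {p : ℕ → unitInterval}
    (h : (fun n : ℕ => (n : ℝ) ^ (-(2 : ℝ) / (r + 1))) =o[atTop] (fun n => (p n : ℝ))) :
    ∀ᶠ n : ℕ in atTop, 0 < (p n : ℝ) := by
  filter_upwards [range_lower h le_rfl] with n hn
  rcases (p n).2.1.lt_or_eq with h0 | h0
  · exact h0
  · exfalso
    rw [← h0, zero_pow (by omega), mul_zero] at hn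
    linarith

/-! ### Complements -/

lemma measurable_of_finite {V : Type*} [Finite V] (S : Set (SimpleGraph V)) :
    MeasurableSet S := by
  rw [← (measurableEmbedding_edgeSet (V := V)).measurableSet_image]
  exact (Set.toFinite _).measurableSet

lemma real_compl {V : Type*} [Finite V] (p : unitInterval) (Q : SimpleGraph V → Prop) :
    (binomialRandom V p).real {G | ¬ Q G} = 1 - (binomialRandom V p).real {G | Q G} := by
  have := probReal_compl_eq_one_sub (μ := binomialRandom V p) (measurable_of_finite {G | Q G})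
  exact this

/-- For `n ^ (-2/(r+1)) ≪ p ≪ n ^ (-2/(r+2))` and `r ≥ 2`, the threshold for
`G(rn+t, p) → (K_{r+1}, P_n)` has order `p ^ (-(r+1 choose 2)) * n ^ (-(r-1))`. The upper half
also holds for `r = 1`. -/
theorem result (r : ℕ) (hr : 1 ≤ r) :
    ∃ c C : ℝ, 0 < c ∧ c ≤ C ∧ ∀ p : ℕ → unitInterval,
      (fun n : ℕ => (n : ℝ) ^ (-(2 : ℝ) / (r + 1))) =o[atTop] (fun n => (p n : ℝ)) →
      (fun n => (p n : ℝ)) =o[atTop] (fun n : ℕ => (n : ℝ) ^ (-(2 : ℝ) / (r + 2))) →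
      ∀ t : ℕ → ℕ,
        ((∀ᶠ n in atTop, C * t0 r n (p n) ≤ (t n : ℝ)) →
          Tendsto (fun n => (binomialRandom (Fin (r * n + t n)) (p n)).real
            {G | Arrows G (⊤ : SimpleGraph (Fin (r + 1))) (pathGraph n)}) atTop (𝓝 1)) ∧
        (2 ≤ r → (∀ᶠ n in atTop, (t n : ℝ) ≤ c * t0 r n (p n)) →
          Tendsto (fun n => (binomialRandom (Fin (r * n + t n)) (p n)).real
            {G | ¬ Arrows G (⊤ : SimpleGraph (Fin (r + 1))) (pathGraph n)}) atTop (𝓝 1)) := by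
  have hC1 := one_le_bigC r
  have hCpos : 0 < bigC r := by linarith
  have hr0 : (0 : ℝ) < r := by exact_mod_cast (by omega : 0 < r)
  have hr1 : (1 : ℝ) ≤ r := by exact_mod_cast (by omega : 1 ≤ r)
  have hrr : (1 : ℝ) ≤ (r : ℝ) ^ r := one_le_pow₀ hr1
  have hc0 : 0 < smallc r := by
    unfold smallc
    positivity
  have hc1 : smallc r ≤ 1 := by
    unfold smallc
    rw [div_le_one (by positivity)]
    linarith
  refine ⟨smallc r, bigC r, hc0, hc1.trans hC1, ?_⟩
  intro p hlow hup t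
  have hpos := range_pos hlow
  have hn2 := range_upper hup
  constructor
  · intro ht
    have hreal : Tendsto (fun n : ℕ => (binomialRandom (Fin (r * n + t n)) (p n)).real
        {G | ¬ Arrows G (⊤ : SimpleGraph (Fin (r + 1))) (pathGraph n)}) atTop (𝓝 0) := by
      have hexp : Tendsto (fun n : ℕ => Real.exp (- (n : ℝ))) atTop (𝓝 0) :=
        Real.tendsto_exp_neg_atTop_nhds_zero.comp tendsto_natCast_atTop_atTop
      refine tendsto_of_tendsto_of_tendsto_of_le_of_le' tendsto_const_nhds hexp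
        (Eventually.of_forall fun n => measureReal_nonneg) ?_
      have hB : (1 : ℝ) ≤ bigC r ^ 2 := one_le_pow₀ hC1
      filter_upwards [hpos, hn2, range_small hup (ε := 1 / bigC r ^ 2) (by positivity),
        range_lower hlow hB, ht, eventually_ge_atTop 6] with n hp0 hn2 hsmall hlarge htn hn6
      have ht0 : 0 < t0 r n (p n) := t0_pos hp0 (by omega)
      have h3 := a3 (r := r) hp0 hC1 (by omega) hlarge
      have h4 := t0_mul (r := r) hp0 (by omega : 0 < n) (by omega)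
      refine upper_prob (p n) hr hn6 hp0 ?_ (hB.trans hlarge) hn2 ⌈bigC r * t0 r n (p n)⌉₊ ?_
        (Nat.le_ceil _) ?_ ?_
      · rw [le_div_iff₀ (by positivity)] at hsmall
        linarith
      · exact Nat.ceil_pos.mpr (by positivity)
      · rw [Nat.ceil_le, ← h4, mul_comm]
        exact mul_le_mul_of_nonneg_left h3 ht0.le
      · have hk : ⌈bigC r * t0 r n (p n)⌉₊ ≤ t n := Nat.ceil_le.mpr htn
        rw [Fintype.card_fin]
        have : r * (n - 1) ≤ r * n := Nat.mul_le_mul_left _ (by omega)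
        omega
    have h1 : Tendsto (fun n : ℕ => 1 - (binomialRandom (Fin (r * n + t n)) (p n)).real
        {G | ¬ Arrows G (⊤ : SimpleGraph (Fin (r + 1))) (pathGraph n)}) atTop (𝓝 (1 - 0)) :=
      tendsto_const_nhds.sub hreal
    rw [sub_zero] at h1
    refine h1.congr fun n => ?_
    rw [real_compl]
    ring
  · intro hr2 ht
    have hreal : Tendsto (fun n : ℕ => (binomialRandom (Fin (r * n + t n)) (p n)).real
        {G | Arrows G (⊤ : SimpleGraph (Fin (r + 1))) (pathGraph n)}) atTop (𝓝 0) := by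
      have hlim : Tendsto (fun n : ℕ => 8 * kap (r + 1) * (r : ℝ) ^ r / (n : ℝ)) atTop (𝓝 0) :=
        tendsto_const_nhds.div_atTop tendsto_natCast_atTop_atTop
      refine tendsto_of_tendsto_of_tendsto_of_le_of_le' tendsto_const_nhds hlim
        (Eventually.of_forall fun n => measureReal_nonneg) ?_
      set M : ℝ := 16 * (r : ℝ) ^ (r + 1) with hM
      have hM1 : 1 ≤ M := by
        have : (1 : ℝ) ≤ (r : ℝ) ^ (r + 1) := one_le_pow₀ hr1
        linarith
      have hM2 : (1 : ℝ) ≤ M ^ 2 := one_le_pow₀ hM1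
      filter_upwards [hpos, hn2, range_small hup (ε := 1 / M ^ 2) (by positivity),
        range_lower hlow hM2, ht, eventually_ge_atTop (4 * r + 8)]
        with n hp0 hn2 hsmall hlarge htn hnr
      have ht0 : 0 < t0 r n (p n) := t0_pos hp0 (by omega)
      have h3 := a3 (r := r) hp0 hM1 (by omega) hlarge
      have h4 := t0_mul (r := r) hp0 (by omega : 0 < n) (by omega)
      have h5 : M ^ 2 ≤ t0 r n (p n) := by
        refine a4 hp0 (by omega) (by omega) ?_ hn2
        rw [le_div_iff₀ (by positivity)] at hsmall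
        linarith
      have h6 : M ≤ M ^ 2 := by nlinarith
      have h7 : M * t0 r n (p n) ≤ n := by
        rw [← h4, mul_comm]
        exact mul_le_mul_of_nonneg_left h3 ht0.le
      have h8 : (t n : ℝ) ≤ t0 r n (p n) := by
        refine htn.trans ?_
        nlinarith
      have h9 : 16 * (t n : ℝ) ≤ n := by
        have : 16 ≤ M := by
          have : (1 : ℝ) ≤ (r : ℝ) ^ (r + 1) := one_le_pow₀ hr1
          linarith
        nlinarith
      have h10 : 16 * t n ≤ n := by exact_mod_cast h9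
      exact lower_prob (p n) hr2 (by omega) hp0 (p n).2.2 (hM2.trans hlarge) hn2 (h6.trans h5) htn
        (by omega) (by rw [Fintype.card_fin])
    have h1 : Tendsto (fun n : ℕ => 1 - (binomialRandom (Fin (r * n + t n)) (p n)).real
        {G | Arrows G (⊤ : SimpleGraph (Fin (r + 1))) (pathGraph n)}) atTop (𝓝 (1 - 0)) :=
      tendsto_const_nhds.sub hreal
    rw [sub_zero] at h1
    refine h1.congr fun n => ?_
    rw [real_compl]

end Pool.Agent.Results.MP_4b2596_co.Threshold
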